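import Pool.Agent.H13.UGK.FinK
import Pool.Agent.H8.UGC.All0
import Pool.Agent.H8.UGC.Bmap8
import Pool.Agent.H8.UGC.Hyp
import Pool.Agent.H8.UGC.Spn
import Pool.Agent.H8.UGC.Start
import Pool.Agent.H8.UGC.Tra
import Pool.Agent.H8.UGC.Cone0

/-!
# Block C with codimension, without hypotheses
-/

set_option autoImplicit false

namespace Pool.Agent.H13.UGK

open Pool.Agent.H8.UGC

/-- The Green-Griffiths-Lang property for Brody curves in dimension `2 n + k` implies that the
non-hyperbolic forms in dimension `n` lie in a closed cone of codimension `> k`. -/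
theorem hypK_of_gglc (n k d : ℕ) (hd : 1 ≤ d) (h : GGLC (2 * n + k) d) : HypK n k d :=
  blockCK stepS piS mm_span mapS zero_mem_Bad Bad_cone (startS mapS zero_mem_Bad Bad_cone) dimS traS resS n k d hd h

end Pool.Agent.H13.UGK
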