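import Mathlib
import Pool.Agent.H50.Z.L4_Dim

/-!
# Krull dimension of quotients by kernels
-/

set_option autoImplicit false

open MvPolynomial

namespace Pool.Agent.H13.UGK

theorem dim_le_of_trdeg {D : Type} [CommRing D] [IsDomain D] [Algebra ℂ D] [Algebra.FiniteType ℂ D]
    (s : ℕ) (h : Algebra.trdeg ℂ D ≤ (s : Cardinal.{0})) :
    ringKrullDim D ≤ (s : WithBot ℕ∞) := by
  rw [ringKrullDim_le_iff_height_le]
  intro P hP
  have h1 := H50.Z.height_add_trdeg (k := ℂ) P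
  have h2 : (P.height : ℕ∞) ≤ Cardinal.toENat (Algebra.trdeg ℂ D) := by
    rw [← h1]
    exact le_self_add
  have h3 : Cardinal.toENat (Algebra.trdeg ℂ D) ≤ (s : ℕ∞) := by
    have h4 := Cardinal.toENat.monotone' h
    simpa using h4
  exact_mod_cast h2.trans h3

/-- the dimension of a quotient is bounded through smaller primes above the ideal -/
theorem dim_quot_le {R : Type} [CommRing R] (J : Ideal R) (s : WithBot ℕ∞)
    (h : ∀ P : Ideal R, P.IsPrime → J ≤ P → ∃ P' : Ideal R, P' ≤ P ∧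
      ringKrullDim (R ⧸ P') ≤ s) : ringKrullDim (R ⧸ J) ≤ s := by
  rw [ringKrullDim_quotient]
  refine iSup_le fun l => ?_
  obtain ⟨P', h1, h2⟩ := h l.head.1.asIdeal l.head.1.2 (by
    have := l.head.2
    rwa [PrimeSpectrum.mem_zeroLocus] at this)
  refine le_trans ?_ h2
  rw [ringKrullDim_quotient]
  have hmem : ∀ i, (l i).1 ∈ PrimeSpectrum.zeroLocus (P' : Set R) := by
    intro i
    rw [PrimeSpectrum.mem_zeroLocus]
    refine le_trans (show (P' : Set R) ⊆ (l.head.1.asIdeal : Set R) from h1) ?_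
    have h3 : l.head ≤ l i := l.head_le i
    exact h3
  let l' : LTSeries (PrimeSpectrum.zeroLocus (P' : Set R)) :=
    LTSeries.mk l.length (fun i => ⟨(l i).1, hmem i⟩) (fun i j hij => l.strictMono hij)
  exact Order.LTSeries.length_le_krullDim l'

/-- the kernel of a homomorphism to an algebra all of whose residue domains have transcendence degree
at most `s` -/
theorem dim_ker_le {κ B : Type} [Fintype κ] [CommRing B] [Algebra ℂ B]
    (φ : MvPolynomial κ ℂ →ₐ[ℂ] B) (s : ℕ)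
    (h : ∀ q : Ideal B, q.IsPrime → Algebra.trdeg ℂ (B ⧸ q) ≤ (s : Cardinal.{0}))
    (P : Ideal (MvPolynomial κ ℂ)) (hP : P.IsPrime) (hJ : RingHom.ker φ ≤ P) :
    ∃ P' : Ideal (MvPolynomial κ ℂ), P' ≤ P ∧
      ringKrullDim (MvPolynomial κ ℂ ⧸ P') ≤ (s : WithBot ℕ∞) := by
  obtain ⟨P', hP', hle⟩ := Ideal.exists_minimalPrimes_le hJ
  have h1 : P' ∈ (Ideal.comap φ.toRingHom ⊥).minimalPrimes := hP'
  obtain ⟨q, hq, -, hqc⟩ := Ideal.exists_comap_eq_of_mem_minimalPrimes φ.toRingHom P' h1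
  have hprime : P'.IsPrime := hP'.1.1
  refine ⟨P', hle, dim_le_of_trdeg s (le_trans ?_ (h q hq))⟩
  let ψ : (MvPolynomial κ ℂ ⧸ P') →ₐ[ℂ] (B ⧸ q) :=
    Ideal.quotientMapₐ q φ (by rw [← hqc]; rfl)
  have hψ : Function.Injective ψ := by
    exact Ideal.quotientMap_injective' (H := hqc.ge) (le_of_eq hqc)
  exact trdeg_le_of_injective ψ hψ

end Pool.Agent.H13.UGK
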