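import Pool.Agent.H13.UGK.Img
import Pool.Agent.H8.UGC.End
import Pool.Agent.H8.UGC.Main
import Pool.Agent.H31.UG.Bridge
import Pool.Agent.H8.RK.AlgS

/-!
# Block C with codimension: the non-hyperbolic locus has codimension `> k`
-/

set_option autoImplicit false

open MvPolynomial Module

namespace Pool.Agent.H13.UGK

open Pool.Agent.H47.KB Pool.Agent.H8.UGC Pool.Agent.H8.RK

/-- the basis of the space of forms given by the monomials -/
noncomputable def bs (n d : ℕ) : Basis (Mon (n + 2) d) ℂ (Sd n d) :=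
  Basis.ofEquivFun
    { toFun := fun F α => F.1.coeff α.1
      map_add' := fun F G => by
        funext α
        simp
      map_smul' := fun c F => by
        funext α
        simp
      invFun := fun v => ⟨∑ α : Mon (n + 2) d, monomial α.1 (v α), by
        rw [mem_homogeneousSubmodule]
        apply IsHomogeneous.sum
        intro α _
        exact isHomogeneous_monomial _ ((mem_mon α.1).1 α.2)⟩
      left_inv := fun F => by
        classical
        apply Subtype.ext
        ext u
        simp only [coeff_sum, coeff_monomial]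
        by_cases hu : u ∈ Finset.finsuppAntidiag (Finset.univ : Finset (Fin (n + 2))) d
        · rw [Finset.sum_eq_single (⟨u, hu⟩ : Mon (n + 2) d)]
          · simp
          · intro β _ hβ
            rw [if_neg]
            intro h
            exact hβ (Subtype.ext h)
          · intro h
            exact absurd (Finset.mem_univ _) h
        · rw [Finset.sum_eq_zero]
          · symm
            by_contra hne
            apply hu
            rw [mem_mon]
            have h2 := ((mem_homogeneousSubmodule _ _).1 F.2) hne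
            rw [← h2, Finsupp.degree_eq_weight_one]
            rfl
          · intro β _
            rw [if_neg]
            rintro rfl
            exact hu β.2
      right_inv := fun v => by
        classical
        funext α
        simp only [coeff_sum, coeff_monomial]
        rw [Finset.sum_eq_single α]
        · simp
        · intro β _ hβ
          rw [if_neg]
          intro h
          exact hβ (Subtype.ext h)
        · intro h
          exact absurd (Finset.mem_univ _) h }

theorem bs_repr (n d : ℕ) (F : Sd n d) (α : Mon (n + 2) d) : (bs n d).repr F α = F.1.coeff α.1 := rfl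

/-- The non-hyperbolic forms of degree `d` in `n + 2` variables lie in a Zariski closed cone of
codimension `> k`. -/
def HypK (n k d : ℕ) : Prop :=
  ∃ I : Ideal (MvPolynomial (Mon (n + 2) d) ℂ), (∀ f ∈ I, ∀ j, homogeneousComponent j f ∈ I) ∧
    ringKrullDim (MvPolynomial (Mon (n + 2) d) ℂ ⧸ I) + ((k + 1 : ℕ) : WithBot ℕ∞) ≤
      (Fintype.card (Mon (n + 2) d) : WithBot ℕ∞) ∧
    ∀ F : MvPolynomial (Fin (n + 2)) ℂ, F.IsHomogeneous d →
      (∃ f ∈ I, eval (fun α : Mon (n + 2) d => F.coeff α.1) f ≠ 0) → HypP F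

theorem finishK (hdim : DimS) (htra : TraS) (hmap : MapS) (hres : ResS) (hcone : ConeS)
    (n k d : ℕ) (hd : 1 ≤ d) (W : Submodule ℂ (Vd n d)) (hW : n + 1 + k ≤ finrank ℂ W)
    (hWZ : ∀ w ∈ W, w ∈ cl (Bad n d) → w = 0) : HypK n k d := by
  classical
  set Bf : Set (Sd n d) := {F | ∃ g : ℂ → Vec n, BrodyC F.1 g ∧ ¬ IsConst g} with hBf
  have hcard : Fintype.card (Mon (n + 2) d) = finrank ℂ (Sd n d) :=
    (finrank_eq_card_basis (bs n d)).symm
  have hBc : ∀ t : ℂ, ∀ F ∈ Bf, t • F ∈ Bf := by
    rintro t F ⟨g, hg, hc⟩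
    refine ⟨g, ⟨hg.1, fun z => ?_⟩, hc⟩
    have h1 := hg.2 z
    rw [Submodule.coe_smul, smul_eval, h1, mul_zero]
  refine ⟨Pool.Agent.H31.UG.idl (bs n d) Bf, Pool.Agent.H31.UG.idl_hom (bs n d) hBc, ?_, ?_⟩
  · -- the dimension
    have hk : n + 1 + finrank ℂ (Vd n d) + (k + 1) ≤ finrank ℂ (Sd n d) + finrank ℂ W := by
      have h1 := hdim n d hd
      omega
    have hWle : finrank ℂ W ≤ finrank ℂ (Vd n d) := Submodule.finrank_le W
    set e : ℕ := n + 1 + finrank ℂ (Vd n d) - finrank ℂ W with he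
    have hmain : ringKrullDim (MvPolynomial (Mon (n + 2) d) ℂ ⧸
        Pool.Agent.H31.UG.idl (bs n d) Bf) ≤ (e : WithBot ℕ∞) := by
      have hT := fun i => htra n d i
      choose T hTp hTx using hT
      refine dim_quot_le _ _ fun P hP hIP => ?_
      let J : Fin (n + 2) → Ideal (MvPolynomial (Mon (n + 2) d) ℂ) := fun i =>
        Pool.Agent.H31.UG.idl (bs n d) {F | ∃ a, ∃ z ∈ cl (Bad n d), F = T i (a, z)}
      have hJ : (Finset.univ.inf J) ≤ P := by
        refine le_trans ?_ hIP
        intro Q hQ F hF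
        obtain ⟨g, hg, hc⟩ := hF
        obtain ⟨⟨r, hr, C, hch⟩, h0⟩ := hg
        obtain ⟨i, hi⟩ := hch 0
        have hgi : g 0 i ≠ 0 := hi.ne 0 (Metric.mem_ball_self hr)
        obtain ⟨h1, h2⟩ := hres n d F.1 ((mem_homogeneousSubmodule _ _).1 F.2) g
          ⟨⟨r, hr, C, hch⟩, h0⟩ hc (fun _ => (g 0 i)⁻¹) fun _ => inv_ne_zero hgi
        have hx : ((g 0 i)⁻¹ • g 0) i = 1 := by
          rw [Pi.smul_apply, smul_eq_mul, inv_mul_cancel₀ hgi]
        obtain ⟨a, φ, hφ, hφx, hG⟩ := hTx i ((g 0 i)⁻¹ • g 0) hx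
        obtain ⟨G, hTG, hev⟩ := hG F (h1.2 0)
        obtain ⟨h3, h4⟩ := hmap n n φ hφ G.1 F.1 hev _ h1 h2
        have hQi : Q ∈ J i := (Finset.inf_le (f := J) (Finset.mem_univ i)) hQ
        refine hQi F ⟨a, G, subset_cl _ ⟨_, h3, h4, 0, ?_⟩, hTG.symm⟩
        exact hφx
      obtain ⟨i, -, hi⟩ := (Ideal.IsPrime.inf_le' hP).1 hJ
      refine dim_image (A := Fin (n + 1) → ℂ) (V := Vd n d) (bs n d) ((zc_iff _).1 (ZC_cl (Bad n d)))
        (cl_cone (hcone n d)) W (fun z hz hw => hWZ z hw hz) (polyMap_to (hTp i)) e ?_ P hP ?_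
      · rw [finrank_fin_fun]
        omega
      · intro Q hQ
        apply hi
        rintro F ⟨a, z, hz, rfl⟩
        exact hQ a z hz
    rw [hcard]
    calc ringKrullDim (MvPolynomial (Mon (n + 2) d) ℂ ⧸ Pool.Agent.H31.UG.idl (bs n d) Bf) +
          ((k + 1 : ℕ) : WithBot ℕ∞) ≤ (e : WithBot ℕ∞) + ((k + 1 : ℕ) : WithBot ℕ∞) :=
          add_le_add_left hmain _
      _ = ((e + (k + 1) : ℕ) : WithBot ℕ∞) := by push_cast; rfl
      _ ≤ ((finrank ℂ (Sd n d) : ℕ) : WithBot ℕ∞) := by
          have : e + (k + 1) ≤ finrank ℂ (Sd n d) := by omega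
          exact_mod_cast this
  · -- the forms outside
    rintro F hF ⟨f, hf, hne⟩ g hg hg0 hgF
    have h1 : ∀ g : ℂ → Vec n, BrodyC F g → IsConst g := by
      intro g' hg'
      by_contra hc
      exact hne (hf ⟨F, (mem_homogeneousSubmodule _ _).2 hF⟩ ⟨g', hg', hc⟩)
    exact const_of_no_brodyC hF h1 g ⟨hg, hg0, hgF⟩

theorem blockCK (hstep : StepS) (hpi : PiS) (hspn : SpnS) (hmap : MapS) (hzero : ZeroS)
    (hcone : ConeS) (hstart : StartS) (hdim : DimS) (htra : TraS) (hres : ResS)
    (n k d : ℕ) (hd : 1 ≤ d) (h : GGLC (2 * n + k) d) : HypK n k d := by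
  obtain ⟨e, rfl⟩ : ∃ e, d = e + 1 := ⟨d - 1, by omega⟩
  have key : ∀ j : ℕ, ∀ r : ℕ, r + j = 2 * n + k → ∃ W : Submodule ℂ (Vd r (e + 1)),
      Module.finrank ℂ W = j + 1 ∧ ∀ w ∈ W, w ∈ cl (Bad r (e + 1)) → w = 0 := by
    intro j
    induction j with
    | zero =>
      intro r hr
      obtain rfl : r = 2 * n + k := by omega
      exact hstart _ _ hd h
    | succ j ih =>
      intro r hr
      obtain ⟨W, h1, h2⟩ := ih (r + 1) (by omega)
      obtain ⟨W', h3, h4⟩ := geo_step hstep hpi hspn hmap hzero hcone W (by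
        rintro rfl
        rw [finrank_bot] at h1
        omega) h2
      exact ⟨W', by omega, h4⟩
  obtain ⟨W, h1, h2⟩ := key (n + k) n (by omega)
  exact finishK hdim htra hmap hres hcone n k _ hd W (by omega) h2

end Pool.Agent.H13.UGK
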