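import Pool.Agent.H57.UGB.Main
import Pool.Agent.H47.UG.MainA
import Pool.Agent.H97.UG.Num2
import Pool.Agent.H3.UG.Rank
import Pool.Agent.H47.UG.GenF
import Pool.Agent.H47.UG.FFex
import Pool.Agent.H47.UG.Kdim

/-!
# The Green-Griffiths-Lang property for Brody curves in general hypersurfaces of degree
`d ≥ 100 n² (5 + log n)²`
-/

set_option autoImplicit false

open MvPolynomial

namespace Pool.Agent.H13.UGK

open Pool.Agent.H47.KB (wt Mon)
open Pool.Agent.H47.UG Pool.Agent.H47.UG.FF Pool.Agent.H57.UGB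

/-- Many jet differentials of order `k`, weight `m` and twist `-b`. -/
theorem exists_many2 {K : Type} [Field K] [CharZero K] {n d : ℕ} {F : HP K n} (T : FF d F)
    (hF : Nice d F) (hn : 2 ≤ n) (hd : 100 * (n : ℝ) ^ 2 * (5 + Real.log n) ^ 2 ≤ d) :
    ∃ k m b p : ℕ, 1 ≤ k ∧ k + 1 ≤ d ∧ p * (5 * k) < b ∧
      ∃ H : Submodule K T.BB, H ≤ H0 (T.EE k (-(b : ℤ)) m) ∧ FiniteDimensional K H ∧
        Nat.card (Mon n k m (p + 1)) * hyp n d ((d - 2) * m - b) < Module.finrank K H := by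
  obtain ⟨k, hk, hkd, h⟩ := Pool.Agent.H97.UG.numeric2 hn hd
  obtain ⟨c₀, hA⟩ := T.mainA hF hn (by omega) k
  obtain ⟨m, b, p, l, c, h1, h2, h3, h4⟩ := h c₀
  obtain ⟨H, hH, hfin, hle⟩ := hA m b l c h2 h3
  obtain ⟨r1, r2⟩ := rank_glue K n k m l
  exact ⟨k, m, b, p, hk, by omega, h1, H, hH, hfin, h4 _ _ _ r1 r2 hle⟩

/-- Outside a proper Zariski closed subset of the universal hypersurface of degree
`d ≥ 100 n² (5 + log n)²` there are no points of Brody curves. -/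
theorem gglc2 {n d : ℕ} (hn : 2 ≤ n) (hd : 100 * (n : ℝ) ^ 2 * (5 + Real.log n) ^ 2 ≤ d) :
    Pool.Agent.H8.UGC.GGLC n d := by
  have hd2 : 2 ≤ d := by
    have h1 : (2 : ℝ) ≤ n := by exact_mod_cast hn
    have h2 : 0 ≤ Real.log n := Real.log_nonneg (by linarith)
    have h4 : (25 : ℝ) ≤ (5 + Real.log n) ^ 2 := by nlinarith
    have h5 : (4 : ℝ) ≤ (n : ℝ) ^ 2 := by nlinarith
    have h6 : (4 : ℝ) * 25 ≤ (n : ℝ) ^ 2 * (5 + Real.log n) ^ 2 :=
      mul_le_mul h5 h4 (by norm_num) (by positivity)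
    have h3 : (2 : ℝ) ≤ d := by linarith
    exact_mod_cast h3
  have hF : Nice d (genK n d) := nice_gen hn hd2
  obtain ⟨T⟩ := exists_FF (by omega) hd2 hF
  obtain ⟨k, m, b, p, hk, hkd, hpb, H, hH, hfin, hdim⟩ := exists_many2 T hF hn hd
  exact Pool.Agent.H57.UGB.gglc_of_sections n d k m b p _ (by omega) hk hkd hpb T H hH hfin hdim
    fun U hU H' hH' hHU => T.finrank_inter_le hF (by omega) hd2 k m b U hU H' hH' hHU

end Pool.Agent.H13.UGK
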