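import Pool.Agent.H13.UGK.DimK
import Pool.Agent.H31.UG.Count

/-!
# The dimension of the closure of the image of `A × Z`
-/

set_option autoImplicit false

open MvPolynomial Module

namespace Pool.Agent.H13.UGK

open Pool.Agent.H31.UG

theorem trdeg_le_of_rel {α σ τ : Type} [Fintype α] [Fintype σ] [Fintype τ]
    {B : Type} [CommRing B] [Algebra ℂ B]
    (a : α → B) (x : σ → B) (y : τ → B) (s : ℕ) (h : τ → σ → MvPolynomial (σ ⊕ τ) ℂ)
    (hdeg : ∀ i j, (h i j).IsHomogeneous s)
    (hrel : ∀ i, y i ^ (s + 1) = ∑ j, x j * aeval (Sum.elim x y) (h i j))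
    (htop : Algebra.adjoin ℂ (Set.range a ∪ Set.range x ∪ Set.range y) = ⊤)
    (q : Ideal B) (hq : q.IsPrime) :
    Algebra.trdeg ℂ (B ⧸ q) ≤ ((Fintype.card α + Fintype.card σ : ℕ) : Cardinal.{0}) := by
  classical
  let π : B →ₐ[ℂ] (B ⧸ q) := Ideal.Quotient.mkₐ ℂ q
  set S : Set (B ⧸ q) := Set.range (fun i => π (a i)) ∪ Set.range (fun i => π (x i)) with hS
  set P : Subalgebra ℂ (B ⧸ q) := Algebra.adjoin ℂ S with hP
  have hint : Algebra.IsIntegral P (B ⧸ q) := by
    have hy : ∀ i, IsIntegral P (π (y i)) := by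
      refine isIntegral_of_rel (fun j => π (x j)) (fun i => π (y i)) s h hdeg ?_ P
        (fun j => Algebra.subset_adjoin (Or.inr ⟨j, rfl⟩))
      intro i
      rw [← map_pow, hrel, map_sum]
      refine Finset.sum_congr rfl fun j _ => ?_
      rw [map_mul]
      congr 1
      have h1 : (π.comp (aeval (Sum.elim x y))) =
          aeval (Sum.elim (fun j => π (x j)) (fun i => π (y i))) := by
        apply MvPolynomial.algHom_ext
        rintro (j | i) <;> simp
      exact congrArg (fun g => g (h i j)) h1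
    constructor
    intro z
    obtain ⟨z, rfl⟩ := Ideal.Quotient.mk_surjective z
    have hz : z ∈ Algebra.adjoin ℂ (Set.range a ∪ Set.range x ∪ Set.range y) := by
      rw [htop]
      exact Algebra.mem_top
    have h1 : ∀ z ∈ Algebra.adjoin ℂ (Set.range a ∪ Set.range x ∪ Set.range y),
        IsIntegral P (π z) := by
      intro z hz
      induction hz using Algebra.adjoin_induction with
      | mem z hz =>
        rcases hz with (⟨i, rfl⟩ | ⟨i, rfl⟩) | ⟨i, rfl⟩
        · exact isIntegral_algebraMap (R := P) (x := ⟨π (a i), Algebra.subset_adjoin (Or.inl ⟨i, rfl⟩)⟩)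
        · exact isIntegral_algebraMap (R := P) (x := ⟨π (x i), Algebra.subset_adjoin (Or.inr ⟨i, rfl⟩)⟩)
        · exact hy i
      | algebraMap r =>
        rw [AlgHom.commutes]
        exact isIntegral_algebraMap (R := P) (x := algebraMap ℂ P r)
      | add u v _ _ hu hv =>
        rw [map_add]
        exact hu.add hv
      | mul u v _ _ hu hv =>
        rw [map_mul]
        exact hu.mul hv
    exact h1 z hz
  have halg : Algebra.IsAlgebraic P (B ⧸ q) := inferInstance
  have h4 : Algebra.trdeg ℂ (B ⧸ q) ≤ Cardinal.mk S :=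
    Algebra.IsAlgebraic.trdeg_le_cardinalMk ℂ S
  have h5 : Cardinal.mk S ≤ (Fintype.card α + Fintype.card σ : ℕ) := by
    refine (Cardinal.mk_union_le _ _).trans ?_
    have h6 : Cardinal.mk (Set.range fun i => π (a i)) ≤ (Fintype.card α : ℕ) := by
      refine Cardinal.mk_range_le.trans ?_
      rw [Cardinal.mk_fintype]
    have h7 : Cardinal.mk (Set.range fun i => π (x i)) ≤ (Fintype.card σ : ℕ) := by
      refine Cardinal.mk_range_le.trans ?_
      rw [Cardinal.mk_fintype]
    push_cast
    exact add_le_add h6 h7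
  exact h4.trans h5

variable {V A S : Type} [AddCommGroup V] [Module ℂ V] [AddCommGroup A] [Module ℂ A]
  [AddCommGroup S] [Module ℂ S]

/-- the closure of the image of `A × Z` has dimension at most `dim A + dim V - dim W` -/
theorem dim_image [FiniteDimensional ℂ V] [FiniteDimensional ℂ A] {κ : Type} [Fintype κ]
    (bS : Basis κ ℂ S) {Z : Set V} (hZ : IsZC Z) (hc : ∀ t : ℂ, ∀ z ∈ Z, t • z ∈ Z)
    (W : Submodule ℂ V) (h0 : ∀ z ∈ Z, z ∈ W → z = 0) {T : A × V → S} (hT : IsPoly T)
    (e : ℕ) (hdim : finrank ℂ A + finrank ℂ V ≤ e + finrank ℂ W)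
    (P : Ideal (MvPolynomial κ ℂ)) (hP : P.IsPrime)
    (hle : ∀ Q : MvPolynomial κ ℂ,
      (∀ (a : A), ∀ z ∈ Z, eval (fun i => bS.repr (T (a, z)) i) Q = 0) → Q ∈ P) :
    ∃ P' : Ideal (MvPolynomial κ ℂ), P' ≤ P ∧
      ringKrullDim (MvPolynomial κ ℂ ⧸ P') ≤ (e : WithBot ℕ∞) := by
  classical
  obtain ⟨q, c, b, hqc, hcW, hW⟩ := exists_adapted W
  obtain ⟨s, h, hh, hrel⟩ := cone_rel b hZ hc (fun z hz hz0 => h0 z hz ((hW z).2 hz0))
  let bA := finBasis ℂ A
  let bb := bA.prod b
  have hTk : ∀ k, ∃ p : MvPolynomial (Fin (finrank ℂ A) ⊕ (Fin q ⊕ Fin c)) ℂ,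
      ∀ v, bS.repr (T v) k = eval (fun i => bb.repr v i) p := fun k =>
    (mem_polyFun_iff bb _).1 (hT (bS.coord k))
  choose t ht using hTk
  let I' := idl bb {p : A × V | p.2 ∈ Z}
  let mk := Ideal.Quotient.mkₐ ℂ I'
  let φ : MvPolynomial κ ℂ →ₐ[ℂ]
      (MvPolynomial (Fin (finrank ℂ A) ⊕ (Fin q ⊕ Fin c)) ℂ ⧸ I') := mk.comp (aeval t)
  refine dim_ker_le φ e (fun qq hqq => ?_) P hP ?_
  · refine (trdeg_le_of_rel (fun i => mk (X (Sum.inl i)))
      (fun j => mk (X (Sum.inr (Sum.inl j)))) (fun i => mk (X (Sum.inr (Sum.inr i)))) s h hh ?_ ?_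
      qq hqq).trans ?_
    · intro i
      have h1 : (aeval (Sum.elim (fun j => mk (X (Sum.inr (Sum.inl j))))
          (fun i => mk (X (Sum.inr (Sum.inr i)))))) = mk.comp (rename Sum.inr) := by
        apply MvPolynomial.algHom_ext
        rintro (j | i) <;> simp
      rw [h1]
      have h2 : rename Sum.inr (X (Sum.inr i) ^ (s + 1) - ∑ j, X (Sum.inl j) * h i j) ∈ I' := by
        rintro ⟨a, z⟩ hz
        rw [eval_rename]
        have h3 : (fun i => bb.repr (a, z) i) ∘ Sum.inr = fun i => b.repr z i := by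
          funext i
          simp [bb]
        rw [h3]
        exact hrel i z hz
      have h4 : mk (rename Sum.inr (X (Sum.inr i) ^ (s + 1) - ∑ j, X (Sum.inl j) * h i j)) = 0 :=
        Ideal.Quotient.eq_zero_iff_mem.2 h2
      rw [map_sub, map_sub, sub_eq_zero, map_pow, map_pow, rename_X, map_sum, map_sum] at h4
      rw [h4]
      refine Finset.sum_congr rfl fun j _ => ?_
      rw [map_mul, map_mul, rename_X]
      rfl
    · rw [eq_top_iff]
      rintro z -
      obtain ⟨z, rfl⟩ := Ideal.Quotient.mk_surjective z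
      show mk z ∈ _
      induction z using MvPolynomial.induction_on with
      | C r =>
        have : mk (C r) = algebraMap ℂ _ r := mk.commutes r
        rw [this]
        exact Subalgebra.algebraMap_mem _ r
      | add p p' hp hp' =>
        rw [map_add]
        exact Subalgebra.add_mem _ hp hp'
      | mul_X p i hp =>
        rw [map_mul]
        refine Subalgebra.mul_mem _ hp (Algebra.subset_adjoin ?_)
        rcases i with i | j | i
        · exact Or.inl (Or.inl ⟨i, rfl⟩)
        · exact Or.inl (Or.inr ⟨j, rfl⟩)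
        · exact Or.inr ⟨i, rfl⟩
    · simp only [Fintype.card_fin]
      exact_mod_cast (by omega : finrank ℂ A + q ≤ e)
  · intro Q hQ
    apply hle
    intro a z hz
    have hQ' : φ Q = 0 := hQ
    have h1 : aeval t Q ∈ I' := Ideal.Quotient.eq_zero_iff_mem.1 hQ'
    have h2 := h1 (a, z) hz
    have h3 : (eval (fun i => bb.repr (a, z) i)) (aeval t Q) =
        eval (fun k => eval (fun i => bb.repr (a, z) i) (t k)) Q := by
      have h4 : ((eval (fun i => bb.repr (a, z) i)).comp (aeval t).toRingHom) =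
          eval (fun k => eval (fun i => bb.repr (a, z) i) (t k)) := by
        apply MvPolynomial.ringHom_ext
        · intro r
          simp
        · intro i
          simp
      exact congrArg (fun g => g Q) h4
    rw [h3] at h2
    simp only [ht]
    exact h2

end Pool.Agent.H13.UGK
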